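import Pool.Agent.Helper57.HS.GoalsG

/-! # HS, INTG: interpolation (packet 5002) -/

open Metric Set Filter Topology

namespace Pool.Agent.Helper84.HS

open Pool.Agent.Helper95.Lin Pool.Agent.Helper57.HS

/-- the bound of the first derivative -/
theorem intg_deriv {n : ℕ} {W : Set (Cn n)} (hW : IsOpen W) {v : Cn n → ℝ}
    (hv : ContDiffOn ℝ 2 v W) {M B h : ℝ} (hh : 0 < h) {x : Cn n} (hx : closedBall x h ⊆ W)
    (hM : ∀ y ∈ W, |v y| ≤ M) (hB : ∀ y ∈ W, ‖D2 v y‖ ≤ B) :
    ‖fderiv ℝ v x‖ ≤ 2 * M / h + h * B := by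
  have hxx : x ∈ closedBall x h := mem_closedBall_self hh.le
  have hM0 : 0 ≤ M := (abs_nonneg _).trans (hM x (hx hxx))
  have hB0 : 0 ≤ B := (norm_nonneg (D2 v x)).trans (hB x (hx hxx))
  have d1 : ∀ y ∈ W, DifferentiableAt ℝ v y := fun y hy =>
    (hv.contDiffAt (hW.mem_nhds hy)).differentiableAt (by norm_num)
  have d2 : ∀ y ∈ W, DifferentiableAt ℝ (fderiv ℝ v) y := fun y hy =>
    ((hv.contDiffAt (hW.mem_nhds hy)).fderiv_right (m := 1) (by norm_num)).differentiableAt (by norm_num)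
  have s1 : ∀ y ∈ closedBall x h, ‖fderiv ℝ v y - fderiv ℝ v x‖ ≤ B * h := by
    intro y hy
    refine ((convex_closedBall x h).norm_image_sub_le_of_norm_fderiv_le (𝕜 := ℝ)
      (fun z hz => d2 z (hx hz)) (fun z hz => hB z (hx hz)) hxx hy).trans ?_
    rw [mem_closedBall, dist_eq_norm] at hy
    gcongr
  refine ContinuousLinearMap.opNorm_le_of_unit_norm (by positivity) fun e he => ?_
  have hy : x + h • e ∈ closedBall x h := by
    rw [mem_closedBall, dist_eq_norm, add_sub_cancel_left, norm_smul, he, Real.norm_of_nonneg hh.le,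
      mul_one]
  have s2 := (convex_closedBall x h).norm_image_sub_le_of_norm_fderiv_le' (𝕜 := ℝ)
      (fun z hz => d1 z (hx hz)) s1 hxx hy
  rw [add_sub_cancel_left, map_smul, norm_smul, he, Real.norm_of_nonneg hh.le, mul_one,
    smul_eq_mul] at s2
  rw [Real.norm_eq_abs] at s2 ⊢
  have m1 := hM _ (hx hy)
  have m2 := hM _ (hx hxx)
  have s3 : h * |fderiv ℝ v x e| ≤ 2 * M + h * B * h := by
    have e1 : h * |fderiv ℝ v x e| = |h * fderiv ℝ v x e| := by
      rw [abs_mul, abs_of_pos hh]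
    rw [e1]
    rw [abs_le] at *
    constructor <;> linarith [s2.1, s2.2, m1.1, m1.2, m2.1, m2.2]
  have e2 : 2 * M / h + h * B = (2 * M + h * B * h) / h := by
    field_simp
  rw [e2, le_div_iff₀ hh]
  linarith

theorem intg : S_INTG := by
  intro n S S' a θ hS hS' hSS ha ha1 hθ
  obtain ⟨ρ', hρ', hρS'⟩ := hS.exists_cthickening_subset_open isOpen_interior hSS
  set ρ := min ρ' 1 with hρdef
  have hρ : 0 < ρ := lt_min hρ' one_pos
  have hρ1 : ρ ≤ 1 := min_le_right _ _
  have hρS : ∀ x ∈ S, closedBall x ρ ⊆ interior S' := fun x hx =>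
    ((closedBall_subset_closedBall (min_le_left _ _)).trans (closedBall_subset_cthickening hx ρ')).trans hρS'
  set s := min (ρ / 2) (θ ^ (1 / (1 - a))) with hs
  have hs0 : 0 < s := lt_min (by positivity) (by positivity)
  have hs1 : s ≤ ρ / 2 := min_le_left _ _
  have hsθ : s ^ (1 - a) ≤ θ := by
    calc s ^ (1 - a) ≤ (θ ^ (1 / (1 - a))) ^ (1 - a) := by
          refine Real.rpow_le_rpow hs0.le (min_le_right _ _) (by linarith)
      _ = θ := by
          rw [← Real.rpow_mul hθ.le, one_div, inv_mul_cancel₀ (by linarith), Real.rpow_one]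
  set σ := s ^ a with hσ
  have hσ0 : 0 < σ := by positivity
  have hσ1 : σ ≤ 1 := Real.rpow_le_one hs0.le (by linarith) ha.le
  set h := min (ρ / 2) (θ * σ / 2) with hh
  have hh0 : 0 < h := lt_min (by positivity) (by positivity)
  have hh1 : h ≤ ρ / 2 := min_le_left _ _
  have hh2 : h ≤ θ * σ / 2 := min_le_right _ _
  have hhθ : h ≤ θ := by nlinarith
  refine ⟨1 + 4 / (h * σ) + 2 / σ, by positivity, ?_⟩
  intro v hv M B hM hB
  have hMi : ∀ x ∈ interior S', |v x| ≤ M := fun x hx => hM x (interior_subset hx)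
  have hBi : ∀ x ∈ interior S', ‖D2 v x‖ ≤ B := fun x hx => hB x (interior_subset hx)
  have pos : ∀ x ∈ S, 0 ≤ M ∧ 0 ≤ B := fun x hx =>
    ⟨(abs_nonneg _).trans (hMi x (hSS hx)), (norm_nonneg (D2 v x)).trans (hBi x (hSS hx))⟩
  set P := 2 * M / h + h * B with hP
  have hD : ∀ x ∈ S, ∀ y, ‖y - x‖ ≤ s → ‖fderiv ℝ v y‖ ≤ P := by
    intro x hx y hy
    refine intg_deriv isOpen_interior hv hh0 ?_ hMi hBi
    refine Subset.trans (fun z hz => ?_) (hρS x hx)
    rw [mem_closedBall, dist_eq_norm] at hz ⊢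
    calc ‖z - x‖ = ‖(z - y) + (y - x)‖ := by congr 1; abel
      _ ≤ ‖z - y‖ + ‖y - x‖ := norm_add_le _ _
      _ ≤ ρ := by linarith
  have k1 : ∀ x ∈ S, 2 * M / h ≤ 4 / (h * σ) * M := by
    intro x hx
    have h0 := (pos x hx).1
    have : 2 * M / h = 2 / h * M := by ring
    rw [this]
    refine mul_le_mul_of_nonneg_right ?_ h0
    rw [div_le_div_iff₀ hh0 (by positivity)]
    nlinarith [mul_pos hh0 hσ0]
  have k2 : ∀ x ∈ S, P ≤ θ * B + (1 + 4 / (h * σ) + 2 / σ) * M := by
    intro x hx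
    have h1 := k1 x hx
    obtain ⟨h2, h3⟩ := pos x hx
    have h4 : 0 ≤ 2 / σ * M := by positivity
    have h5 : h * B ≤ θ * B := mul_le_mul_of_nonneg_right hhθ h3
    have h6 : (1 + 4 / (h * σ) + 2 / σ) * M = M + 4 / (h * σ) * M + 2 / σ * M := by ring
    rw [hP, h6]
    linarith
  have k3 : ∀ x ∈ S, 2 * P / σ ≤ θ * B + (1 + 4 / (h * σ) + 2 / σ) * M := by
    intro x hx
    obtain ⟨h2, h3⟩ := pos x hx
    have h4 : 0 ≤ 2 / σ * M := by positivity
    have h6 : (1 + 4 / (h * σ) + 2 / σ) * M = M + 4 / (h * σ) * M + 2 / σ * M := by ring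
    have h7 : 2 * P / σ = 4 / (h * σ) * M + 2 * h / σ * B := by
      rw [hP]
      field_simp
      ring
    have h8 : 2 * h / σ ≤ θ := by
      rw [div_le_iff₀ hσ0]
      linarith
    have h9 : 2 * h / σ * B ≤ θ * B := mul_le_mul_of_nonneg_right h8 h3
    rw [h6, h7]
    linarith
  have k4 : ∀ x ∈ S, 2 * M / σ ≤ θ * B + (1 + 4 / (h * σ) + 2 / σ) * M := by
    intro x hx
    obtain ⟨h2, h3⟩ := pos x hx
    have h4 : 0 ≤ 4 / (h * σ) * M := by positivity
    have h6 : (1 + 4 / (h * σ) + 2 / σ) * M = M + 4 / (h * σ) * M + 2 / σ * M := by ring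
    have h7 : 2 * M / σ = 2 / σ * M := by ring
    rw [h6, h7]
    have := mul_nonneg hθ.le h3
    linarith
  have k5 : ∀ x ∈ S, M ≤ θ * B + (1 + 4 / (h * σ) + 2 / σ) * M := by
    intro x hx
    obtain ⟨h2, h3⟩ := pos x hx
    have h4 : 0 ≤ 4 / (h * σ) * M := by positivity
    have h5 : 0 ≤ 2 / σ * M := by positivity
    have h6 : (1 + 4 / (h * σ) + 2 / σ) * M = M + 4 / (h * σ) * M + 2 / σ * M := by ring
    rw [h6]
    have := mul_nonneg hθ.le h3
    linarith
  have hxx : ∀ x ∈ S, ‖fderiv ℝ v x‖ ≤ P := fun x hx => hD x hx x (by simp [hs0.le])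
  have far : ∀ t : ℝ, s < t → 1 ≤ t ^ a / σ := by
    intro t ht
    rw [le_div_iff₀ hσ0, one_mul]
    exact Real.rpow_le_rpow hs0.le ht.le ha.le
  have far' : ∀ t Y Z : ℝ, s < t → 0 ≤ Y → Y / σ ≤ Z → Y ≤ Z * t ^ a := by
    intro t Y Z ht hY hZ
    have h1 := far t ht
    have h2 : 0 ≤ t ^ a := Real.rpow_nonneg (hs0.trans ht).le a
    calc Y = Y * 1 := (mul_one _).symm
      _ ≤ Y * (t ^ a / σ) := by gcongr
      _ = Y / σ * t ^ a := by ring
      _ ≤ Z * t ^ a := by gcongr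
  have d1 : ∀ y ∈ interior S', DifferentiableAt ℝ v y := fun y hy =>
    (hv.contDiffAt (isOpen_interior.mem_nhds hy)).differentiableAt (by norm_num)
  have d2 : ∀ y ∈ interior S', DifferentiableAt ℝ (fderiv ℝ v) y := fun y hy =>
    ((hv.contDiffAt (isOpen_interior.mem_nhds hy)).fderiv_right (m := 1) (by norm_num)).differentiableAt
      (by norm_num)
  have cb : ∀ x ∈ S, closedBall x s ⊆ interior S' := fun x hx =>
    (closedBall_subset_closedBall (by linarith)).trans (hρS x hx)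
  have near : ∀ x y : Cn n, ‖x - y‖ ≤ s → ‖x - y‖ ≤ ‖x - y‖ ^ a := by
    intro x y hxy
    rcases (norm_nonneg (x - y)).eq_or_lt with h0 | h0
    · rw [← h0, Real.zero_rpow ha.ne']
    · calc ‖x - y‖ = ‖x - y‖ ^ (1 : ℝ) := (Real.rpow_one _).symm
        _ ≤ ‖x - y‖ ^ a := Real.rpow_le_rpow_of_exponent_ge h0 (by linarith) ha1.le
  have near' : ∀ x y : Cn n, ‖x - y‖ ≤ s → ‖x - y‖ ≤ θ * ‖x - y‖ ^ a := by
    intro x y hxy
    rcases (norm_nonneg (x - y)).eq_or_lt with h0 | h0
    · rw [← h0, Real.zero_rpow ha.ne', mul_zero]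
    · calc ‖x - y‖ = ‖x - y‖ ^ (1 - a) * ‖x - y‖ ^ a := by
            rw [← Real.rpow_add h0, sub_add_cancel, Real.rpow_one]
        _ ≤ θ * ‖x - y‖ ^ a := by
            refine mul_le_mul_of_nonneg_right ?_ (Real.rpow_nonneg h0.le a)
            exact (Real.rpow_le_rpow h0.le hxy (by linarith)).trans hsθ
  refine ⟨fun x hx => ⟨?_, ?_⟩, ?_, ?_⟩
  · rw [Real.norm_eq_abs]
    exact (hMi x (hSS hx)).trans (k5 x hx)
  · exact (hxx x hx).trans (k2 x hx)
  · intro x hx y hy
    have hC : 0 ≤ θ * B + (1 + 4 / (h * σ) + 2 / σ) * M := (pos x hx).1.trans (k5 x hx)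
    rcases le_or_gt ‖x - y‖ s with hxy | hxy
    · have h1 : ‖v x - v y‖ ≤ P * ‖x - y‖ := by
        have h2 := (convex_closedBall x s).norm_image_sub_le_of_norm_fderiv_le (𝕜 := ℝ) (C := P)
          (x := y) (y := x)
          (fun z hz => d1 z (cb x hx hz)) (fun z hz => hD x hx z (by
            rwa [mem_closedBall, dist_eq_norm] at hz)) (by
            rw [mem_closedBall, dist_comm, dist_eq_norm]; exact hxy) (mem_closedBall_self hs0.le)
        exact h2
      refine h1.trans ?_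
      calc P * ‖x - y‖ ≤ (θ * B + (1 + 4 / (h * σ) + 2 / σ) * M) * ‖x - y‖ := by
            gcongr
            exact k2 x hx
        _ ≤ _ := by
            gcongr
            exact near x y hxy
    · refine far' _ _ _ hxy (norm_nonneg _) ?_
      refine le_trans ?_ (k4 x hx)
      gcongr
      rw [Real.norm_eq_abs]
      have h1 := hMi x (hSS hx)
      have h2 := hMi y (hSS hy)
      have h3 := abs_sub (v x) (v y)
      linarith
  · intro x hx y hy
    have hC : 0 ≤ θ * B + (1 + 4 / (h * σ) + 2 / σ) * M := (pos x hx).1.trans (k5 x hx)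
    rcases le_or_gt ‖x - y‖ s with hxy | hxy
    · have h1 : ‖fderiv ℝ v x - fderiv ℝ v y‖ ≤ B * ‖x - y‖ := by
        have h2 := (convex_closedBall x s).norm_image_sub_le_of_norm_fderiv_le (𝕜 := ℝ) (C := B)
          (x := y) (y := x) (f := fderiv ℝ v)
          (fun z hz => d2 z (cb x hx hz)) (fun z hz => hBi z (cb x hx hz)) (by
            rw [mem_closedBall, dist_comm, dist_eq_norm]; exact hxy) (mem_closedBall_self hs0.le)
        exact h2
      refine h1.trans ?_
      have h3 : 0 ≤ ‖x - y‖ ^ a := by positivity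
      obtain ⟨h4, h5⟩ := pos x hx
      calc B * ‖x - y‖ ≤ B * (θ * ‖x - y‖ ^ a) := by
            gcongr
            exact near' x y hxy
        _ = (θ * B) * ‖x - y‖ ^ a := by ring
        _ ≤ _ := by
            refine mul_le_mul_of_nonneg_right ?_ h3
            have : 0 ≤ (1 + 4 / (h * σ) + 2 / σ) * M := by positivity
            linarith
    · refine far' _ _ _ hxy (norm_nonneg _) ?_
      refine le_trans ?_ (k3 x hx)
      gcongr
      have h1 := hxx x hx
      have h2 := hxx y hy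
      have h3 := norm_sub_le (fderiv ℝ v x) (fderiv ℝ v y)
      linarith

end Pool.Agent.Helper84.HS
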