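import Pool.Agent.Helper95.HS.GoalsA

/-! # HS, ENG1: the energy estimate (packet 4879) -/

open Complex Metric Set Filter Topology MeasureTheory
open scoped ContDiff ComplexConjugate

namespace Pool.Agent.Helper84.HS

open Pool.Agent.Helper95.HS

/-- Product of a smooth function of support in `U` with a function smooth on `U`. -/
theorem contDiff_mul_of_tsupport {U : Set ℂ} (hU : IsOpen U) {a w : ℂ → ℝ} (ha : ContDiff ℝ ∞ a)
    (hw : ContDiffOn ℝ ∞ w U) (hs : tsupport a ⊆ U) : ContDiff ℝ ∞ (fun z => a z * w z) := by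
  rw [contDiff_iff_contDiffAt]
  intro z
  by_cases hz : z ∈ U
  · exact ha.contDiffAt.mul (hw.contDiffAt (hU.mem_nhds hz))
  · have h1 : z ∈ (tsupport a)ᶜ := fun h => hz (hs h)
    have h2 : (fun z => a z * w z) =ᶠ[𝓝 z] fun _ => 0 := by
      filter_upwards [(isClosed_tsupport a).isOpen_compl.mem_nhds h1] with y hy
      rw [image_eq_zero_of_notMem_tsupport hy, zero_mul]
    exact contDiffAt_const.congr_of_eventuallyEq h2

/-- The operator norm of a real linear functional on `ℂ`. -/
theorem norm_sq_le (L : ℂ →L[ℝ] ℝ) : ‖L‖ ^ 2 ≤ L 1 ^ 2 + L I ^ 2 := by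
  have h : ‖L‖ ≤ Real.sqrt (L 1 ^ 2 + L I ^ 2) := by
    refine L.opNorm_le_bound (Real.sqrt_nonneg _) fun z => ?_
    have h1 : L z = z.re * L 1 + z.im * L I := by
      conv_lhs => rw [← Complex.re_add_im z]
      rw [map_add]
      have e1 : L (z.re : ℂ) = z.re * L 1 := by
        rw [← mul_one (z.re : ℂ), ← Complex.real_smul, map_smul, smul_eq_mul]
      have e2 : L (z.im * I) = z.im * L I := by
        rw [← Complex.real_smul, map_smul, smul_eq_mul]
      rw [e1, e2]
    rw [h1, Real.norm_eq_abs]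
    have h2 : ‖z‖ = Real.sqrt (z.re ^ 2 + z.im ^ 2) := by
      rw [Complex.norm_eq_sqrt_sq_add_sq]
    rw [h2, ← Real.sqrt_mul (by positivity)]
    refine Real.abs_le_sqrt ?_
    nlinarith [sq_nonneg (z.re * L I - z.im * L 1)]
  calc ‖L‖ ^ 2 ≤ (Real.sqrt (L 1 ^ 2 + L I ^ 2)) ^ 2 := by
        gcongr
    _ = _ := Real.sq_sqrt (by positivity)

/-- derivative in the direction `v` -/
noncomputable def dd (v : ℂ) (f : ℂ → ℝ) (z : ℂ) : ℝ := fderiv ℝ f z v

theorem dd_contDiff {f : ℂ → ℝ} (hf : ContDiff ℝ ∞ f) (v : ℂ) : ContDiff ℝ ∞ (dd v f) := by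
  unfold dd
  exact (hf.fderiv_right (m := ∞) (by simp)).clm_apply contDiff_const

theorem dd_mul {f g : ℂ → ℝ} (hf : ContDiff ℝ ∞ f) (hg : ContDiff ℝ ∞ g) (v z : ℂ) :
    dd v (fun z => f z * g z) z = f z * dd v g z + dd v f z * g z := by
  unfold dd
  rw [fderiv_fun_mul (hf.differentiable (by simp) z) (hg.differentiable (by simp) z)]
  simp [mul_comm]

theorem ibp {f g : ℂ → ℝ} (hf : ContDiff ℝ ∞ f) (hg : ContDiff ℝ ∞ g) (hs : HasCompactSupport f)
    (v : ℂ) : ∫ z, f z * dd v g z = - ∫ z, dd v f z * g z := by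
  have cf := hf.continuous
  have cg := hg.continuous
  have hs' : HasCompactSupport (dd v f) := by
    unfold dd
    exact (hs.fderiv (𝕜 := ℝ)).comp_left (g := fun L : ℂ →L[ℝ] ℝ => L v) (by simp)
  unfold dd
  refine integral_mul_fderiv_eq_neg_fderiv_mul_of_integrable ?_ ?_ ?_
    (fun x _ => hf.differentiable (by simp) x) (fun x _ => hg.differentiable (by simp) x)
  · exact ((dd_contDiff hf v).continuous.mul cg).integrable_of_hasCompactSupport hs'.mul_right
  · exact (cf.mul (dd_contDiff hg v).continuous).integrable_of_hasCompactSupport hs.mul_right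
  · exact (cf.mul cg).integrable_of_hasCompactSupport hs.mul_right

theorem dd_eq_zero {f : ℂ → ℝ} {z : ℂ} (hz : z ∉ tsupport f) (v : ℂ) : dd v f z = 0 := by
  unfold dd
  have h : f =ᶠ[𝓝 z] fun _ => 0 := by
    filter_upwards [(isClosed_tsupport f).isOpen_compl.mem_nhds hz] with y hy
    exact image_eq_zero_of_notMem_tsupport hy
  rw [h.fderiv_eq]
  simp

/-- The Caccioppoli inequality: for `G = q ^ 4` superharmonic on the support of `χ`. -/
theorem cacc {c q : ℂ → ℝ} (hc : ContDiff ℝ ∞ c) (hq : ContDiff ℝ ∞ q) (hs : HasCompactSupport c)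
    (hpos : ∀ z, 0 < q z) (hG : ∀ z ∈ tsupport c, lap (fun z => q z ^ 4) z ≤ 0) :
    ∫ z, ‖fderiv ℝ (fun z => c z * q z) z‖ ^ 2 ≤
      4 * ∫ z, q z ^ 2 * (dd 1 c z ^ 2 + dd I c z ^ 2) := by
  set G : ℂ → ℝ := fun z => q z ^ 4 with hGdef
  set T : ℂ → ℝ := fun z => c z ^ 2 * (q z ^ 2)⁻¹ with hT
  have hG1 : ContDiff ℝ ∞ G := hq.pow 4
  have hT1 : ContDiff ℝ ∞ T := by
    refine (hc.pow 2).mul ((hq.pow 2).inv fun z => ?_)
    exact (pow_pos (hpos z) 2).ne'
  have hTs : HasCompactSupport T := by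
    have h1 : HasCompactSupport (fun z => c z ^ 2) := hs.comp_left (g := fun t : ℝ => t ^ 2) (by simp)
    exact h1.mul_right
  have dG : ∀ v z, dd v G z = 4 * q z ^ 3 * dd v q z := by
    intro v z
    unfold dd
    rw [hGdef, fderiv_fun_pow (n := 4) (hq.differentiable (by simp) z)]
    simp
  have dT : ∀ v z, dd v T z = 2 * c z * dd v c z * (q z ^ 2)⁻¹ -
      2 * c z ^ 2 * (q z ^ 3)⁻¹ * dd v q z := by
    intro v z
    have e1 : HasFDerivAt c (fderiv ℝ c z) z := (hc.differentiable (by simp) z).hasFDerivAt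
    have e2 : HasFDerivAt q (fderiv ℝ q z) z := (hq.differentiable (by simp) z).hasFDerivAt
    have e3 : HasFDerivAt T _ z := (e1.pow 2).mul ((hasDerivAt_inv (pow_pos (hpos z) 2).ne').comp_hasFDerivAt z (e2.pow 2))
    unfold dd
    rw [e3.fderiv]
    have := (hpos z).ne'
    simp
    field_simp
    ring
  have key : ∀ v, ∫ z, T z * dd v (dd v G) z =
      ∫ z, 8 * (c z ^ 2 * dd v q z ^ 2 - c z * q z * dd v c z * dd v q z) := by
    intro v
    rw [ibp hT1 (dd_contDiff hG1 v) hTs v, ← integral_neg]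
    congr 1
    ext z
    rw [dT, dG]
    have := (hpos z).ne'
    field_simp
    ring
  have cc := hc.continuous
  have cq := hq.continuous
  have cdc : ∀ v, Continuous (dd v c) := fun v => (dd_contDiff hc v).continuous
  have cdq : ∀ v, Continuous (dd v q) := fun v => (dd_contDiff hq v).continuous
  have hdc : ∀ v, HasCompactSupport (dd v c) := by
    intro v
    unfold dd
    exact (hs.fderiv (𝕜 := ℝ)).comp_left (g := fun L : ℂ →L[ℝ] ℝ => L v) (by simp)
  have iT : ∀ v, Integrable (fun z => T z * dd v (dd v G) z) := by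
    intro v
    exact (hT1.continuous.mul (dd_contDiff (dd_contDiff hG1 v) v).continuous).integrable_of_hasCompactSupport hTs.mul_right
  have hle : ∫ z, (T z * dd 1 (dd 1 G) z + T z * dd I (dd I G) z) ≤ 0 := by
    refine integral_nonpos fun z => ?_
    by_cases hz : z ∈ tsupport c
    · have h1 := hG z hz
      have h2 : dd 1 (dd 1 G) z + dd I (dd I G) z ≤ 0 := h1
      have h3 : 0 ≤ T z := by
        have := hpos z
        positivity
      show T z * dd 1 (dd 1 G) z + T z * dd I (dd I G) z ≤ 0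
      nlinarith
    · have h1 : c z = 0 := image_eq_zero_of_notMem_tsupport hz
      have h2 : T z = 0 := by simp [hT, h1]
      show T z * dd 1 (dd 1 G) z + T z * dd I (dd I G) z ≤ 0
      rw [h2]; simp
  have iQ : ∀ v, Integrable (fun z => 8 * (c z ^ 2 * dd v q z ^ 2 - c z * q z * dd v c z * dd v q z)) := by
    intro v
    have := cdc v
    have := cdq v
    refine Continuous.integrable_of_hasCompactSupport (by fun_prop) ?_
    refine HasCompactSupport.intro hs fun z hz => ?_
    have h1 : c z = 0 := image_eq_zero_of_notMem_tsupport hz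
    simp [h1]
  have iP : Integrable (fun z => q z ^ 2 * (dd 1 c z ^ 2 + dd I c z ^ 2)) := by
    have := cdc 1
    have := cdc I
    refine Continuous.integrable_of_hasCompactSupport (by fun_prop) ?_
    refine HasCompactSupport.intro hs fun z hz => ?_
    simp [dd_eq_zero hz]
  have iR : Integrable (fun z => 8 * (c z ^ 2 * dd 1 q z ^ 2 - c z * q z * dd 1 c z * dd 1 q z) / 2 +
      8 * (c z ^ 2 * dd I q z ^ 2 - c z * q z * dd I c z * dd I q z) / 2) :=
    ((iQ 1).div_const 2).add ((iQ I).div_const 2)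
  calc ∫ z, ‖fderiv ℝ (fun z => c z * q z) z‖ ^ 2
      ≤ ∫ z, (4 * (q z ^ 2 * (dd 1 c z ^ 2 + dd I c z ^ 2)) +
          (8 * (c z ^ 2 * dd 1 q z ^ 2 - c z * q z * dd 1 c z * dd 1 q z) / 2 +
           8 * (c z ^ 2 * dd I q z ^ 2 - c z * q z * dd I c z * dd I q z) / 2)) := by
        refine integral_mono_of_nonneg (Eventually.of_forall fun z => by positivity) ?_ ?_
        · exact (iP.const_mul 4).add iR
        · refine Eventually.of_forall fun z => ?_
          have h1 := norm_sq_le (fderiv ℝ (fun z => c z * q z) z)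
          have h2 : ∀ v, fderiv ℝ (fun z => c z * q z) z v = c z * dd v q z + dd v c z * q z :=
            fun v => dd_mul hc hq v z
          rw [h2, h2] at h1
          refine h1.trans ?_
          show _ ≤ 4 * (q z ^ 2 * (dd 1 c z ^ 2 + dd I c z ^ 2)) +
            (8 * (c z ^ 2 * dd 1 q z ^ 2 - c z * q z * dd 1 c z * dd 1 q z) / 2 +
             8 * (c z ^ 2 * dd I q z ^ 2 - c z * q z * dd I c z * dd I q z) / 2)
          nlinarith [sq_nonneg (c z * dd 1 q z - dd 1 c z * q z), sq_nonneg (c z * dd I q z - dd I c z * q z)]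
    _ = 4 * (∫ z, q z ^ 2 * (dd 1 c z ^ 2 + dd I c z ^ 2)) +
          ((∫ z, T z * dd 1 (dd 1 G) z) / 2 + (∫ z, T z * dd I (dd I G) z) / 2) := by
        rw [integral_add (iP.const_mul 4) iR,
          integral_add ((iQ 1).div_const 2) ((iQ I).div_const 2), integral_div, integral_div,
          integral_const_mul, key, key]
    _ ≤ _ := by
        rw [integral_add (iT 1) (iT I)] at hle
        linarith

/-- ENG1 -/
theorem eng1 (h1 : S_SMV1) : S_ENG1 := by
  let c : ContDiffBump (0 : ℂ) := ⟨1, 3 / 2, one_pos, by norm_num⟩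
  let b : ContDiffBump (0 : ℂ) := ⟨7 / 4, 15 / 8, by norm_num, by norm_num⟩
  have cs : ContDiff ℝ ∞ (c : ℂ → ℝ) := c.contDiff
  have bs : ContDiff ℝ ∞ (b : ℂ → ℝ) := b.contDiff
  have ct : tsupport (c : ℂ → ℝ) = closedBall 0 (3 / 2) := c.tsupport_eq
  have bt : tsupport (b : ℂ → ℝ) = closedBall 0 (15 / 8) := b.tsupport_eq
  have chc : HasCompactSupport (c : ℂ → ℝ) := c.hasCompactSupport
  have hdc : ∀ v, Continuous (dd v (c : ℂ → ℝ)) := fun v => (dd_contDiff cs v).continuous
  obtain ⟨M, hM⟩ : ∃ M, ∀ z, ‖dd 1 (c : ℂ → ℝ) z ^ 2 + dd I (c : ℂ → ℝ) z ^ 2‖ ≤ M := by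
    have := hdc 1
    have := hdc I
    refine Continuous.bounded_above_of_compact_support (by fun_prop) ?_
    refine HasCompactSupport.intro chc fun z hz => ?_
    simp [dd_eq_zero hz]
  have hM0 : 0 ≤ M := (norm_nonneg _).trans (hM 0)
  refine ⟨24 * Real.pi * M, by positivity, ?_⟩
  intro U w hU hUs hw hw0 hwl m hm hwm
  set s : ℝ := Real.sqrt m with hs
  have hs0 : 0 < s := Real.sqrt_pos.2 hm
  have hss : s ^ 2 = m := Real.sq_sqrt hm.le
  set G : ℂ → ℝ := fun z => m + b z * w z with hG
  have bsub : tsupport (b : ℂ → ℝ) ⊆ U := by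
    rw [bt]
    exact (closedBall_subset_closedBall (by norm_num)).trans hUs
  have hGs : ContDiff ℝ ∞ G := contDiff_const.add (contDiff_mul_of_tsupport hU bs hw bsub)
  have hGm : ∀ z, m ≤ G z := by
    intro z
    by_cases hz : z ∈ tsupport (b : ℂ → ℝ)
    · have h2 := hw0 z (bsub hz)
      have h3 : 0 ≤ b z := b.nonneg
      have h4 := mul_nonneg h3 h2
      show m ≤ m + b z * w z
      linarith
    · have h2 : b z = 0 := image_eq_zero_of_notMem_tsupport hz
      show m ≤ m + b z * w z
      rw [h2]; simp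
  have hG0 : ∀ z, 0 < G z := fun z => hm.trans_le (hGm z)
  have hGeq : ∀ z ∈ closedBall (0 : ℂ) (7 / 4), G z = w z + m := by
    intro z hz
    have h2 : b z = 1 := b.one_of_mem_closedBall hz
    show m + b z * w z = _
    rw [h2]; ring
  set q : ℂ → ℝ := fun z => Real.sqrt (Real.sqrt (G z)) with hq
  have hG2 : ∀ z, 0 < Real.sqrt (G z) := fun z => Real.sqrt_pos.2 (hG0 z)
  have hq0 : ∀ z, 0 < q z := fun z => Real.sqrt_pos.2 (hG2 z)
  have hqs : ContDiff ℝ ∞ q := (hGs.sqrt fun z => (hG0 z).ne').sqrt fun z => (hG2 z).ne'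
  have hq2 : ∀ z, q z ^ 2 = Real.sqrt (G z) := fun z => Real.sq_sqrt (hG2 z).le
  have hq4 : ∀ z, q z ^ 4 = G z := by
    intro z
    have : q z ^ 4 = (q z ^ 2) ^ 2 := by ring
    rw [this, hq2, Real.sq_sqrt (hG0 z).le]
  have hlap : ∀ z ∈ tsupport (c : ℂ → ℝ), lap (fun z => q z ^ 4) z ≤ 0 := by
    intro z hz
    rw [ct] at hz
    have hzU : z ∈ U := hUs ((closedBall_subset_closedBall (by norm_num)) hz)
    have e0 : (fun z => q z ^ 4) = G := funext hq4
    rw [e0]
    have hb : z ∈ ball (0 : ℂ) (7 / 4) := by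
      rw [mem_closedBall] at hz
      rw [mem_ball]
      linarith
    have e1 : ∀ᶠ y in 𝓝 z, G y = w y + m := by
      filter_upwards [isOpen_ball.mem_nhds hb] with y hy
      exact hGeq y (ball_subset_closedBall hy)
    have e2 : ∀ᶠ y in 𝓝 z, fderiv ℝ G y = fderiv ℝ w y := by
      filter_upwards [e1.eventually_nhds] with y hy
      have e3 : G =ᶠ[𝓝 y] fun x => w x + m := hy
      rw [e3.fderiv_eq, fderiv_add_const]
    have e3 : ∀ v, (fun y => fderiv ℝ G y v) =ᶠ[𝓝 z] fun y => fderiv ℝ w y v := by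
      intro v
      filter_upwards [e2] with y hy
      rw [hy]
    have e4 : lap G z = lap w z := by
      unfold lap
      rw [(e3 1).fderiv_eq, (e3 I).fderiv_eq]
    rw [e4]
    exact hwl z hzU
  have hca := cacc cs hqs chc hq0 hlap
  refine ⟨fun z => c z * q z, (cs.mul hqs).of_le (by exact_mod_cast le_top), ?_, ?_, ?_⟩
  · intro z hz
    have h2 : z ∉ tsupport (c : ℂ → ℝ) := by
      rw [ct]
      intro h3
      rw [mem_closedBall] at h3
      rw [mem_ball] at hz
      linarith
    have h3 : c z = 0 := image_eq_zero_of_notMem_tsupport h2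
    show c z * q z = 0
    rw [h3, zero_mul]
  · intro z hz
    have h2 : c z = 1 := c.one_of_mem_closedBall (ball_subset_closedBall hz)
    have h3 : z ∈ closedBall (0 : ℂ) (7 / 4) :=
      (ball_subset_closedBall.trans (closedBall_subset_closedBall (by norm_num))) hz
    show w z ≤ (c z * q z) ^ 4
    rw [h2, one_mul, hq4, hGeq z h3]
    linarith
  · refine hca.trans ?_
    have hwc : ContinuousOn w (closedBall (0 : ℂ) 2) := hw.continuousOn.mono hUs
    have hwi : IntegrableOn w (ball (0 : ℂ) 2) :=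
      (hwc.integrableOn_compact (isCompact_closedBall 0 2)).mono_set ball_subset_closedBall
    have hvol : volume.real (ball (0 : ℂ) 2) = 4 * Real.pi := by
      rw [measureReal_def, Complex.volume_ball]
      simp
      norm_num
    have hfin : volume (ball (0 : ℂ) 2) ≠ ⊤ := measure_ball_lt_top.ne
    have hi1 : IntegrableOn (fun z => M * (((w z + m) / s + s) / 2)) (ball (0 : ℂ) 2) := by
      refine Integrable.const_mul ?_ M
      refine Integrable.div_const ?_ 2
      refine Integrable.add ?_ (integrableOn_const hfin)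
      refine Integrable.div_const ?_ s
      exact Integrable.add hwi (integrableOn_const hfin)
    have hb1 : ∫ z, q z ^ 2 * (dd 1 (c : ℂ → ℝ) z ^ 2 + dd I (c : ℂ → ℝ) z ^ 2) ≤
        ∫ z in ball (0 : ℂ) 2, M * (((w z + m) / s + s) / 2) := by
      rw [← integral_indicator measurableSet_ball]
      refine integral_mono_of_nonneg (Eventually.of_forall fun z => by positivity) ?_ ?_
      · exact (integrable_indicator_iff measurableSet_ball).2 hi1
      · refine Eventually.of_forall fun z => ?_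
        show q z ^ 2 * (dd 1 (c : ℂ → ℝ) z ^ 2 + dd I (c : ℂ → ℝ) z ^ 2) ≤ _
        by_cases hz : z ∈ tsupport (c : ℂ → ℝ)
        · rw [ct] at hz
          have h3 : z ∈ closedBall (0 : ℂ) (7 / 4) := (closedBall_subset_closedBall (by norm_num)) hz
          have h4 : z ∈ ball (0 : ℂ) 2 := by
            rw [mem_closedBall] at hz
            rw [mem_ball]
            linarith
          have hz5 : 0 ≤ w z := hw0 z (hUs (ball_subset_closedBall h4))
          rw [indicator_of_mem h4, hq2, hGeq z h3]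
          have h5 : Real.sqrt (w z + m) ≤ ((w z + m) / s + s) / 2 := by
            rw [div_add' _ _ _ hs0.ne', div_div, le_div_iff₀ (by positivity)]
            nlinarith [sq_nonneg (Real.sqrt (w z + m) - s), Real.sq_sqrt (show 0 ≤ w z + m by linarith)]
          have h6 : dd 1 (c : ℂ → ℝ) z ^ 2 + dd I (c : ℂ → ℝ) z ^ 2 ≤ M :=
            (le_abs_self _).trans (hM z)
          calc Real.sqrt (w z + m) * (dd 1 (c : ℂ → ℝ) z ^ 2 + dd I (c : ℂ → ℝ) z ^ 2)
              ≤ (((w z + m) / s + s) / 2) * M := by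
                gcongr
            _ = _ := mul_comm _ _
        · have h2 : dd 1 (c : ℂ → ℝ) z = 0 := dd_eq_zero hz 1
          have h3 : dd I (c : ℂ → ℝ) z = 0 := dd_eq_zero hz I
          rw [h2, h3]
          simp only [ne_eq, OfNat.ofNat_ne_zero, not_false_eq_true, zero_pow, add_zero, mul_zero]
          refine indicator_nonneg (fun y hy => ?_) z
          have := hw0 y (hUs (ball_subset_closedBall hy))
          positivity
    have hb2 : ∫ z in ball (0 : ℂ) 2, M * (((w z + m) / s + s) / 2) ≤ M * (6 * Real.pi * s) := by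
      rw [integral_const_mul]
      refine mul_le_mul_of_nonneg_left ?_ hM0
      rw [integral_div, integral_add, integral_div, integral_add hwi (integrableOn_const hfin)]
      · simp only [integral_const, MeasurableSet.univ, measureReal_restrict_apply, univ_inter, hvol,
          smul_eq_mul]
        have h2 := h1 U w hU hUs hw hwl
        have h3 : ∫ z in ball (0 : ℂ) 2, w z ≤ 4 * Real.pi * m :=
          h2.trans (mul_le_mul_of_nonneg_left hwm (by positivity))
        rw [div_add' _ _ _ hs0.ne', div_div, div_le_iff₀ (by positivity)]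
        nlinarith [Real.pi_pos, hss]
      · exact (Integrable.add hwi (integrableOn_const hfin)).div_const s
      · exact integrableOn_const hfin
    rw [← Real.sqrt_eq_rpow, ← hs]
    calc 4 * ∫ z, q z ^ 2 * (dd 1 (c : ℂ → ℝ) z ^ 2 + dd I (c : ℂ → ℝ) z ^ 2)
        ≤ 4 * (M * (6 * Real.pi * s)) := by
          gcongr
          exact hb1.trans hb2
      _ = _ := by ring

end Pool.Agent.Helper84.HS
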